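import Pool.Agent.Lib.MP_02f36d_nt.QF.All
import Pool.Agent.Lib.MP_d6ddbd_nt.KA.All

set_option autoImplicit false

namespace Pool.Agent.Lib.MP_02f36d_nt.Old.AlmostAll

open Filter Topology NumberField IsDedekindDomain

theorem result : ∃ Z : Set ℤ,
    Tendsto (fun X : ℕ => ({d ∈ Z | |d| ≤ X}.ncard : ℝ) / X) atTop (𝓝 0) ∧
    ∀ (K : Type) [Field K] [NumberField K] [DecidableEq K] [IsGalois ℚ K] (E : WeierstrassCurve K),
      E = ⟨0, -1, 1, -10, -20⟩ → (∀ σ : K ≃ₐ[ℚ] K, σ ^ 2 = 1) →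
      (∀ d : ℤ, Squarefree d → d ≠ 1 → IsSquare (d : K) → d ∉ Z) →
      Module.Finite ℤ E.toAffine.Point ∧
      Module.finrank ℤ E.toAffine.Point < Module.finrank ℚ K ∧
      (∀ v : HeightOneSpectrum (𝓞 K),
        ¬ (E.minimal (v.valuation K).valuationSubring).HasAdditiveReduction
          (v.valuation K).valuationSubring) ∧
      Even (Module.finrank ℤ E.toAffine.Point + {v : HeightOneSpectrum (𝓞 K) |
        (E.minimal (v.valuation K).valuationSubring).HasSplitMultiplicativeReduction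
          (v.valuation K).valuationSubring}.ncard + Fintype.card (InfinitePlace K)) := by
  obtain ⟨Z, h1, h2⟩ :=
    Pool.Agent.Lib.MP_02f36d_nt.QF.final_all Pool.Agent.Lib.MP_d6ddbd_nt.KA.mainAll
  exact ⟨Z, h1, fun K _ _ _ _ E hE hG hK => hE ▸ h2 K hG hK⟩

end Pool.Agent.Lib.MP_02f36d_nt.Old.AlmostAll
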