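import Pool.Agent.Lib.MP_02f36d_nt.Glob

/-!
The parity conjecture for semistable elliptic curves that are isogenous over `K` to all their
conjugates over a subfield `k`, with non-trivial Ribet cocycle class (false complex
multiplication).
-/

namespace Pool.Agent.Lib.MP_02f36d_nt.Old.FalseCM

open WeierstrassCurve NumberField IsDedekindDomain Pool.Agent.Lib.MP_02f36d_nt

theorem result {k K : Type*} [Field k] [Field K] [NumberField k] [NumberField K] [Algebra k K]
    [DecidableEq K] [DecidableEq (AlgebraicClosure K)]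
    (W : WeierstrassCurve K) [W.IsElliptic]
    (R : (K ≃ₐ[k] K) → RatMap K)
    (φ : ∀ g : K ≃ₐ[k] K,
      ((W.map (g : K →+* K)).baseChange (AlgebraicClosure K)).toAffine.Point →+
        (W.baseChange (AlgebraicClosure K)).toAffine.Point)
    (φ' : ∀ g h : K ≃ₐ[k] K,
      ((W.map ((g * h : K ≃ₐ[k] K) : K →+* K)).baseChange (AlgebraicClosure K)).toAffine.Point →+
        ((W.map (g : K →+* K)).baseChange (AlgebraicClosure K)).toAffine.Point)
    (hφ : ∀ g : K ≃ₐ[k] K, (R g).Gives (W.map (g : K →+* K)) W (φ g))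
    (hφ' : ∀ g h : K ≃ₐ[k] K, ((R h).map (g : K →+* K)).Gives
      (W.map ((g * h : K ≃ₐ[k] K) : K →+* K)) (W.map (g : K →+* K)) (φ' g h))
    (c : (K ≃ₐ[k] K) → (K ≃ₐ[k] K) → ℚ)
    (hc : ∀ g h P, (c g h).den • φ g (φ' g h P) = (c g h).num • φ (g * h) P)
    (hcob : ¬∃ l : (K ≃ₐ[k] K) → ℚˣ, ∀ g h, c g h = l g * l h / l (g * h))
    (hss : ∀ v : HeightOneSpectrum (𝓞 K),
      ¬(W.minimal (v.valuation K).valuationSubring).HasAdditiveReduction
        (v.valuation K).valuationSubring) :
    (-1 : ℤ) ^ Module.finrank ℤ W.toAffine.Point =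
      (-1) ^ ({v : HeightOneSpectrum (𝓞 K) |
          (W.minimal (v.valuation K).valuationSubring).HasSplitMultiplicativeReduction
            (v.valuation K).valuationSubring}.ncard + Fintype.card (InfinitePlace K)) := by
  have hΔ : W.Δ ≠ 0 := W.coe_Δ' ▸ W.Δ'.ne_zero
  have S := mkSys W hΔ R φ φ' hφ hφ' c hc
  have h := not_cob hcob
  rw [(S.even_finrank hΔ (lifts_closure k K) h).neg_one_pow,
    ((S.even_split hΔ h hss).add (S.even_inf hΔ h hss)).neg_one_pow]

end Pool.Agent.Lib.MP_02f36d_nt.Old.FalseCM
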