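import Pool.Agent.Lib.MP_d6ddbd_nt.G.All
import Pool.Agent.Lib.MP_02f36d_nt.TW.Rank
import Pool.Agent.Lib.MP_02f36d_nt.TW.Root

set_option autoImplicit false

namespace Pool.Agent.Lib.MP_02f36d_nt.Old.OddTwists

open Filter Pool.Agent.Lib.MP_02f36d_nt.TW Pool.Agent.Lib.MP_d6ddbd_nt.G

theorem result (E : ℕ → WeierstrassCurve ℚ) (hE : ∀ n, E n = ⟨0, 15 * n, 0, -16 * n ^ 2, 0⟩) :
    ∃ c : ℝ, 0 < c ∧ ∀ ε : ℝ, 0 < ε → ∀ᶠ X : ℕ in atTop,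
      c * X ≤ ({n : ℕ | n ≤ X ∧ Squarefree n ∧ n % 4 = 3 ∧ n.Coprime 51 ∧
          jacobiSym 17 n = 1}.ncard : ℝ) ∧
      (5 / 6 - ε) * ({n : ℕ | n ≤ X ∧ Squarefree n ∧ n % 4 = 3 ∧ n.Coprime 51 ∧
          jacobiSym 17 n = 1}.ncard : ℝ) ≤
        ({n : ℕ | n ≤ X ∧ Squarefree n ∧ n % 4 = 3 ∧ n.Coprime 51 ∧ jacobiSym 17 n = 1 ∧
          HasRootNumber (E n) (-1) ∧ Module.finrank ℤ (E n).toAffine.Point = 1}.ncard : ℝ) := by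
  classical
  obtain ⟨c, hc, h⟩ := cl
  have s1 : ∀ X : ℕ, {n : ℕ | n ≤ X ∧ Squarefree n ∧ n % 4 = 3 ∧ n.Coprime 51 ∧
      jacobiSym 17 n = 1} = (Cl 1 X : Set ℕ) := fun X => by
    ext n
    exact (FinalAux.mem_cl' (Or.inr ⟨rfl, rfl⟩)).symm
  refine ⟨c, hc, fun ε hε => ?_⟩
  filter_upwards [h 1, FinalAux.count (par recip) cl momAll ε hε] with X h1 h2
  rw [s1, Set.ncard_coe_finset]
  refine ⟨h1, h2.1.trans ?_⟩
  rw [← Set.ncard_coe_finset, Nat.cast_le]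
  refine Set.ncard_le_ncard (fun n hn => ?_) ((Set.finite_le_nat X).subset fun n hn => hn.1)
  obtain ⟨a, g⟩ := Finset.mem_filter.1 hn
  obtain ⟨b1, b2, b3, b4, b5⟩ := (FinalAux.mem_cl' (Or.inr ⟨rfl, rfl⟩)).1 a
  obtain ⟨-, -, c1, c2, c3⟩ := FinalAux.mem_cl.1 a
  have e : E n = ED (-n) := by
    rw [hE, ED]
    simp
  have d : dsc n.primeFactors = -n := by
    rcases FinalAux.dsc_cases (FinalAux.odd_of c1) with k | k
    · rw [c2] at k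
      exact absurd k.1 one_ne_zero
    · rw [k.2.1, Nat.prod_primeFactors_of_squarefree b2]
  refine ⟨b1, b2, b3, b4, b5, e ▸ root n b2 b3 b4 b5, ?_⟩
  rw [e, ← d]
  exact rank (desc recip) _ c1 g.1 (indAll geomAll _ ⟨c1, c2, c3⟩ g)

end Pool.Agent.Lib.MP_02f36d_nt.Old.OddTwists
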