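import Mathlib
import Pool.Agent.Lib.MP_02f36d_nt.LI.Ranks

set_option autoImplicit false

namespace Pool.Agent.Old02f36d.RankNotLocal

open WeierstrassCurve Pool.Agent.LocInv Polynomial
open scoped NumberTheorySymbols

/-- The field of `p`-adic numbers. -/
abbrev Qp (p : Nat.Primes) : Type := @Padic p ⟨p.2⟩

lemma hensel {p : ℕ} [Fact p.Prime] (a z : ℤ)
    (h : ‖(((z ^ 2 - a : ℤ)) : ℤ_[p])‖ < ‖((2 * z : ℤ) : ℤ_[p])‖ ^ 2) : IsSquare (a : ℚ_[p]) := by
  obtain ⟨w, hw, -⟩ := hensels_lemma (F := (X ^ 2 - C a : ℤ[X])) (a := (z : ℤ_[p])) (by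
    simpa [mul_comm, map_ofNat] using h)
  refine ⟨w, ?_⟩
  have h1 : w ^ 2 - (a : ℤ_[p]) = 0 := by simpa using hw
  have h2 := congrArg (fun t : ℤ_[p] => (t : ℚ_[p])) h1
  push_cast at h2
  linear_combination -h2

lemma sq_odd {p : ℕ} [hp : Fact p.Prime] (h2 : p ≠ 2) {a : ℤ} (h : J(a | p) = 1) :
    IsSquare (a : ℚ_[p]) := by
  have h0 : (a : ZMod p) ≠ 0 := by
    intro h0
    rw [← jacobiSym.legendreSym.to_jacobiSym, (legendreSym.eq_zero_iff p a).2 h0] at h
    norm_num at h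
  obtain ⟨r, hr⟩ := ZMod.isSquare_of_jacobiSym_eq_one h
  obtain ⟨z, rfl⟩ := ZMod.intCast_surjective r
  apply hensel a z
  have h3 : ¬ (p : ℤ) ∣ 2 * z := by
    rw [← ZMod.intCast_zmod_eq_zero_iff_dvd]
    push_cast
    refine mul_ne_zero ?_ (fun h4 => h0 (by rw [hr, h4, mul_zero]))
    intro h4
    have : ((2 : ℕ) : ZMod p) = 0 := by exact_mod_cast h4
    exact h2 ((Nat.prime_dvd_prime_iff_eq hp.out Nat.prime_two).1
      ((ZMod.natCast_eq_zero_iff _ _).1 this))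
  have h4 : ‖((2 * z : ℤ) : ℤ_[p])‖ = 1 :=
    le_antisymm (PadicInt.norm_le_one _) (not_lt.1 (mt (PadicInt.norm_int_lt_one_iff_dvd _).1 h3))
  rw [h4, one_pow, PadicInt.norm_int_lt_one_iff_dvd, ← ZMod.intCast_zmod_eq_zero_iff_dvd]
  push_cast
  rw [hr]; ring

lemma sq_two : IsSquare ((161 : ℤ) : ℚ_[2]) := by
  apply hensel 161 1
  have h1 : ‖((1 ^ 2 - 161 : ℤ) : ℤ_[2])‖ ≤ ((2 : ℕ) : ℝ) ^ (-(3 : ℕ) : ℤ) :=
    PadicInt.norm_int_le_pow_iff_dvd.2 (by norm_num)
  have h2 : ‖((2 * 1 : ℤ) : ℤ_[2])‖ = ((2 : ℕ) : ℝ)⁻¹ := by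
    have := PadicInt.norm_p (p := 2)
    simpa using this
  rw [h2]
  refine h1.trans_lt (by norm_num)

lemma twist {K A : Type} [Field K] [CharZero K] (lam : WeierstrassCurve K → A)
    (h : ∀ (W : WeierstrassCurve K) (C : VariableChange K), W.IsElliptic → lam (C • W) = lam W)
    {c M : K} (hc : c ≠ 0) (hM : M ≠ 0) (hs : IsSquare c ∨ IsSquare (-c)) :
    lam (cn (c * M)) = lam (cn M) := by
  obtain ⟨u, hu⟩ : ∃ u : K, c ^ 2 = u ^ 4 := by
    rcases hs with ⟨u, hu⟩ | ⟨u, hu⟩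
    · exact ⟨u, by rw [hu]; ring⟩
    · exact ⟨u, by linear_combination (u * u - c) * hu⟩
  have hu0 : u ≠ 0 := by
    rintro rfl
    exact hc (by simpa using hu)
  rw [← h (cn (c * M)) ⟨Units.mk0 u hu0, 0, 0, 0⟩ (cn_ell (mul_ne_zero hc hM))]
  congr 1
  ext <;> simp [cn, variableChange_a₁, variableChange_a₂, variableChange_a₃, variableChange_a₄,
    variableChange_a₆]
  field_simp
  linear_combination hu

lemma base {K : Type} [Field K] [Algebra ℚ K] (N : ℕ) :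
    (cn (N : ℚ)).baseChange K = cn (N : K) := by
  simp [cn, baseChange, WeierstrassCurve.map]

lemma local_rel {A : Type} [AddCommGroup A] {v p : ℕ} [hv : Fact v.Prime] (hp : p.Prime)
    (h8 : p % 8 = 3) (lam : WeierstrassCurve ℚ_[v] → A)
    (h : ∀ (W : WeierstrassCurve ℚ_[v]) (C : VariableChange ℚ_[v]), W.IsElliptic →
      lam (C • W) = lam W)
    (hS : v ∣ 1288 ∨ p ≡ 1 [MOD v] ∨
      (lam (cn ((1 : ℕ) : ℚ_[v])) = 0 ∧ lam (cn ((161 : ℕ) : ℚ_[v])) = 0)) (hbig : 161 < p) :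
    lam (cn ((161 * p : ℕ) : ℚ_[v])) + lam (cn ((1 : ℕ) : ℚ_[v])) =
      lam (cn ((161 : ℕ) : ℚ_[v])) + lam (cn (p : ℚ_[v])) := by
  have hp0 : (p : ℚ_[v]) ≠ 0 := by exact_mod_cast hp.ne_zero
  have ha0 : (161 : ℚ_[v]) ≠ 0 := by norm_num
  push_cast at hS ⊢
  have caseA : IsSquare (161 : ℚ_[v]) ∨ IsSquare (-161 : ℚ_[v]) →
      lam (cn (161 * p)) + lam (cn 1) = lam (cn 161) + lam (cn (p : ℚ_[v])) := by
    intro hs
    have e1 := twist lam h ha0 one_ne_zero hs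
    rw [mul_one] at e1
    rw [twist lam h ha0 hp0 hs, e1, add_comm]
  have caseB : IsSquare (p : ℚ_[v]) ∨ IsSquare (-p : ℚ_[v]) →
      lam (cn (161 * p)) + lam (cn 1) = lam (cn 161) + lam (cn (p : ℚ_[v])) := by
    intro hs
    have e1 := twist lam h hp0 one_ne_zero hs
    rw [mul_one] at e1
    rw [mul_comm, twist lam h hp0 ha0 hs, e1]
  by_cases v2 : v = 2
  · subst v2
    exact caseA (Or.inl (by exact_mod_cast sq_two))
  have pm : ∀ z : ℕ, ¬ v ∣ z → J((z : ℤ) | v) = 1 ∨ J((z : ℤ) | v) = -1 := by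
    intro z hz
    apply jacobiSym.eq_one_or_neg_one
    rw [Int.gcd_natCast_natCast]
    exact ((Nat.Prime.coprime_iff_not_dvd hv.out).2 hz).symm
  have three : ∀ z : ℕ, ¬ v ∣ z → v % 4 = 3 →
      IsSquare (z : ℚ_[v]) ∨ IsSquare (-z : ℚ_[v]) := by
    intro z hz h3
    rcases pm z hz with h1 | h1
    · exact Or.inl (by exact_mod_cast sq_odd v2 h1)
    · refine Or.inr ?_
      have := sq_odd v2 (a := -(z : ℤ)) (by rw [jneg h3, h1]; rfl)
      exact_mod_cast this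
  by_cases vp : v = p
  · subst vp
    have := three 161 (fun h => by have := Nat.le_of_dvd (by norm_num) h; omega) (by omega)
    exact caseA (by exact_mod_cast this)
  have hvp : ¬ v ∣ p := fun h => vp ((Nat.prime_dvd_prime_iff_eq hv.out hp).1 h)
  by_cases va : v ∣ 161
  · refine caseB (three p hvp ?_)
    rcases (hv.out.dvd_mul (m := 7) (n := 23)).1 va with h1 | h1
    · rw [(Nat.prime_dvd_prime_iff_eq hv.out (by norm_num)).1 h1]
    · rw [(Nat.prime_dvd_prime_iff_eq hv.out (by norm_num)).1 h1]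
  rcases hS with hS | hS | ⟨z1, z2⟩
  · exfalso
    rcases (hv.out.dvd_mul (m := 2 ^ 3) (n := 161)).1 hS with h1 | h1
    · exact v2 ((Nat.prime_dvd_prime_iff_eq hv.out Nat.prime_two).1 (hv.out.dvd_of_dvd_pow h1))
    · exact va h1
  · refine caseB (Or.inl ?_)
    have : J((p : ℤ) | v) = 1 := by
      rw [jacobiSym.mod_left' (a₂ := 1) (by exact_mod_cast hS), jacobiSym.one_left]
    exact_mod_cast sq_odd v2 this
  rcases pm 161 va with h1 | h1
  · exact caseA (Or.inl (by exact_mod_cast sq_odd v2 h1))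
  rcases pm p hvp with h2 | h2
  · exact caseB (Or.inl (by exact_mod_cast sq_odd v2 h2))
  have h3 : IsSquare ((161 * p : ℤ) : ℚ_[v]) := sq_odd v2 (by
    rw [jacobiSym.mul_left, h2]
    have : J(161 | v) = -1 := by exact_mod_cast h1
    rw [this]; rfl)
  push_cast at h3
  have e1 := twist lam h (mul_ne_zero ha0 hp0) one_ne_zero (Or.inl h3)
  have e2 := twist lam h (c := p / 161) (div_ne_zero hp0 ha0) ha0 (Or.inl (by
    obtain ⟨r, hr⟩ := h3
    exact ⟨r / 161, by field_simp; linear_combination hr⟩))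
  rw [mul_one] at e1
  rw [div_mul_cancel₀ _ ha0] at e2
  rw [e1, e2, z1, z2]

theorem result {A : Type} [AddCommGroup A] (f : ℕ → A)
    (lamP : (p : Nat.Primes) → WeierstrassCurve (Qp p) → A) (lamR : WeierstrassCurve ℝ → A)
    (hP : ∀ (p : Nat.Primes) (W : WeierstrassCurve (Qp p)) (C : VariableChange (Qp p)),
      W.IsElliptic → lamP p (C • W) = lamP p W)
    (hR : ∀ (W : WeierstrassCurve ℝ) (C : VariableChange ℝ), W.IsElliptic → lamR (C • W) = lamR W)
    (hsum : ∀ E : WeierstrassCurve ℚ, E.IsElliptic →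
      (Function.support fun p : Nat.Primes => lamP p (E.baseChange (Qp p))).Finite ∧
      f (Module.finrank ℤ E.toAffine.Point) =
        lamR (E.baseChange ℝ) + ∑ᶠ p : Nat.Primes, lamP p (E.baseChange (Qp p))) :
    f 2 = f 0 := by
  classical
  have H : ∀ N : ℕ, N ≠ 0 →
      (Function.support fun p : Nat.Primes => lamP p (cn (N : Qp p))).Finite ∧
      f (rk N) = lamR (cn 1) + ∑ᶠ p : Nat.Primes, lamP p (cn (N : Qp p)) := by
    intro N hN
    have h1 := hsum (cn (N : ℚ)) (cn_ell (by exact_mod_cast hN))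
    simp only [base] at h1
    have h2 := twist lamR hR (c := N) (by exact_mod_cast hN) one_ne_zero
      (Or.inl ⟨Real.sqrt N, (Real.mul_self_sqrt (Nat.cast_nonneg N)).symm⟩)
    rw [mul_one] at h2
    rwa [h2] at h1
  obtain ⟨f1, e1⟩ := H 1 one_ne_zero
  obtain ⟨f2, e2⟩ := H 161 (by norm_num)
  set S := ((f1.union f2).toFinset).filter (fun v : Nat.Primes => ¬ (v : ℕ) ∣ 1288) with hS
  set T := ∏ v ∈ S, (v : ℕ) with hT
  have hT0 : T ≠ 0 := Finset.prod_ne_zero_iff.2 fun v _ => v.2.ne_zero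
  have hc : Nat.Coprime 1288 T := Nat.Coprime.prod_right fun v hv =>
    ((Nat.Prime.coprime_iff_not_dvd v.2).2 (Finset.mem_filter.1 hv).2).symm
  obtain ⟨r, r1, r2⟩ := Nat.chineseRemainder hc 3 1
  obtain ⟨p, hbig, hp, hpr⟩ := Nat.forall_exists_prime_gt_and_modEq 161 (q := 1288 * T) (a := r)
    (by positivity) (Nat.Coprime.mul_right (by rw [Nat.Coprime, r1.gcd_eq]; norm_num)
      (by rw [Nat.Coprime, r2.gcd_eq]; simp))
  have p1 : p % 1288 = 3 := (hpr.of_dvd (Dvd.intro _ rfl)).trans r1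
  have p2 : p ≡ 1 [MOD T] := (hpr.of_dvd (Dvd.intro_left _ rfl)).trans r2
  obtain ⟨f3, e3⟩ := H p hp.ne_zero
  obtain ⟨f4, e4⟩ := H (161 * p) (mul_ne_zero (by norm_num) hp.ne_zero)
  have key : ∀ v : Nat.Primes, lamP v (cn ((161 * p : ℕ) : Qp v)) + lamP v (cn ((1 : ℕ) : Qp v)) =
      lamP v (cn ((161 : ℕ) : Qp v)) + lamP v (cn (p : Qp v)) := by
    intro v
    refine @local_rel A _ v p ⟨v.2⟩ hp (by omega) (lamP v) (hP v) ?_ hbig
    by_cases h1 : (v : ℕ) ∣ 1288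
    · exact Or.inl h1
    by_cases h2 : v ∈ S
    · exact Or.inr (Or.inl (p2.of_dvd (Finset.dvd_prod_of_mem _ h2)))
    · simp only [hS, Finset.mem_filter, h1, not_false_eq_true, and_true, Set.Finite.mem_toFinset,
        Set.mem_union, Function.mem_support, not_or, not_not] at h2
      exact Or.inr (Or.inr h2)
  have s1 := finsum_add_distrib f4 f1
  have s2 := finsum_add_distrib f2 f3
  rw [finsum_congr key, s2] at s1
  rw [rk_one] at e1
  rw [rk_161] at e2
  rw [rk_p hp (by omega)] at e3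
  rw [rk_161p hp (by omega) (by omega) (by omega)] at e4
  have : f 2 + f 0 = f 0 + f 0 := by
    conv_lhs => rw [e2, e3]
    conv_rhs => rw [add_comm]; arg 1; rw [e4]
    conv_rhs => arg 2; rw [e1]
    rw [add_add_add_comm, s1, add_add_add_comm]
  exact add_right_cancel this

end Pool.Agent.Old02f36d.RankNotLocal
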