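import Pool.Agent.Lib.MP_d6ddbd_nt.K11.All
import Pool.Agent.Lib.MP_02f36d_nt.X11.Rank

set_option autoImplicit false

namespace Pool.Agent.Lib.MP_02f36d_nt.Old.SmallSelmer

open NumberField IsDedekindDomain Pool.Agent.Lib.MP_02f36d_nt.TW

theorem result (d : ℤ) (hs : Squarefree d) (h4 : d % 4 = 1) (hc : d.natAbs.Coprime 33)
    (E : WeierstrassCurve ℚ) (hE : E = ⟨0, -4 * d, 0, -160 * d ^ 2, -1264 * d ^ 3⟩)
    (L : Type) [Field L] [NumberField L] (θ : L) (hL : Module.finrank ℚ L = 3)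
    (hθ : θ ^ 3 - 4 * θ ^ 2 - 160 * θ - 1264 = 0)
    (Sel : Set (Lˣ ⧸ (powMonoidHom 2 : Lˣ →* Lˣ).range))
    (hS : Sel = QuotientGroup.mk '' {α : Lˣ | IsSquare (Algebra.norm ℚ (α : L)) ∧
      ∀ p : ℕ, p.Prime → ∃ x z : ℚ, (x : L) - d * (z : L) ^ 2 * θ ≠ 0 ∧
        ∀ v : HeightOneSpectrum (𝓞 L), (p : 𝓞 L) ∈ v.asIdeal →
          IsSquare (algebraMap L (v.adicCompletion L) (α * ((x : L) - d * (z : L) ^ 2 * θ)))}) :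
    (Sel.ncard = 1 → HasRootNumber E 1 ∧ Finite E.toAffine.Point) ∧
    (Sel.ncard = 2 → HasRootNumber E (-1) ∧ Module.finrank ℤ E.toAffine.Point = 1) := by
  have n : ∀ q : ℕ, q ∣ 33 → (q : ℤ) ∣ d → q = 1 := fun q h k =>
    Nat.eq_one_of_dvd_coprimes hc (Int.natCast_dvd.1 k) h
  have n11 : ¬ (11 : ℤ) ∣ d := fun k => absurd (n 11 (by norm_num) k) (by norm_num)
  have r := Pool.Agent.Lib.MP_02f36d_nt.X11.root hs h4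
    (fun k => absurd (n 3 (by norm_num) k) (by norm_num)) n11
  have m := Pool.Agent.Lib.MP_d6ddbd_nt.K11.mainAll L θ ⟨hL, hθ⟩ d ⟨hs, h4, n11⟩
  rw [hS, Pool.Agent.Lib.MP_d6ddbd_nt.K11.Final.card_eq, hE]
  exact ⟨fun h => ⟨(m.2 h).2 ▸ r,
      (Pool.Agent.Lib.MP_02f36d_nt.X11.fin_iff hs.ne_zero).2 (m.2 h).1⟩,
    fun h => ⟨(m.1 h).2 ▸ r, Pool.Agent.Lib.MP_02f36d_nt.X11.rank
      Pool.Agent.Lib.MP_d6ddbd_nt.K11.pr_thm ⟨hL, hθ⟩ hs.ne_zero h (m.1 h).1⟩⟩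

end Pool.Agent.Lib.MP_02f36d_nt.Old.SmallSelmer
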